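import Pool.Agent.helper25.PP.Spec

/-!
# Module DN1 of project pp (MP_45d809_mp): union bound for small dense sets of vertices
-/

set_option autoImplicit false

namespace PP

open Finset SimpleGraph CT

theorem DN1_edges {V : Type} [Fintype V] [DecidableEq V] (G : SimpleGraph V) (B : Finset V) (b : ℕ)
    (h : 4 * b ≤ ein G B + 6) :
    ∃ H ∈ (B.offDiag.image (Sym2.mk.uncurry : V × V → Sym2 V)).powersetCard (2 * b - 3),
      ∀ x ∈ H, x ∈ G.edgeSet := by
  classical
  have h1 : ein G B ≤ 2 * ((B.offDiag.image (Sym2.mk.uncurry : V × V → Sym2 V)).filter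
      fun x => x ∈ G.edgeSet).card := by
    unfold ein
    refine Finset.card_le_mul_card_image_of_maps_to (f := (Sym2.mk.uncurry : V × V → Sym2 V)) ?_ 2 ?_
    · intro p hp
      rw [mem_ein] at hp
      obtain ⟨⟨hp1, hp2⟩, hp3⟩ := hp
      rw [Finset.mem_filter, Finset.mem_image]
      refine ⟨⟨p, ?_, rfl⟩, ?_⟩
      · rw [Finset.mem_offDiag]
        exact ⟨hp1, hp2, hp3.ne⟩
      · exact hp3
    · intro x _
      induction x using Sym2.ind with
      | _ x y =>
        refine (Finset.card_le_card (t := {(x, y), (y, x)}) ?_).trans Finset.card_le_two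
        intro p hp
        rw [Finset.mem_filter] at hp
        have h2 : s(p.1, p.2) = s(x, y) := hp.2
        rw [Sym2.eq_iff] at h2
        rw [Finset.mem_insert, Finset.mem_singleton]
        rcases h2 with ⟨h3, h4⟩ | ⟨h3, h4⟩
        · exact Or.inl (Prod.ext h3 h4)
        · exact Or.inr (Prod.ext h3 h4)
  obtain ⟨H, hH1, hH2⟩ := Finset.exists_subset_card_eq
    (s := (B.offDiag.image (Sym2.mk.uncurry : V × V → Sym2 V)).filter fun x => x ∈ G.edgeSet)
    (n := 2 * b - 3) (by omega)
  refine ⟨H, ?_, ?_⟩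
  · rw [Finset.mem_powersetCard]
    exact ⟨hH1.trans (Finset.filter_subset _ _), hH2⟩
  · intro x hx
    exact (Finset.mem_filter.mp (hH1 hx)).2

/-- **DN1**. Union bound. -/
theorem DN1 (h : PA2_stmt) : DN1_stmt := by
  intro V _ _ b hb hn
  classical
  have h1 : RP (fun G : SimpleGraph V => ∃ B : Finset V, B.card = b ∧ 4 * b ≤ ein G B + 6) ⊆
      ((univ : Finset V).powersetCard b).biUnion fun B =>
        ((B.offDiag.image (Sym2.mk.uncurry : V × V → Sym2 V)).powersetCard (2 * b - 3)).biUnion fun H =>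
          RP fun G : SimpleGraph V => ∀ x ∈ H, x ∈ G.edgeSet := by
    intro G hG
    rw [mem_cc] at hG
    obtain ⟨hG1, B, hB1, hB2⟩ := hG
    obtain ⟨H, hH1, hH2⟩ := DN1_edges G B b hB2
    rw [Finset.mem_biUnion]
    refine ⟨B, Finset.mem_powersetCard.mpr ⟨Finset.subset_univ _, hB1⟩, ?_⟩
    rw [Finset.mem_biUnion]
    exact ⟨H, hH1, (mem_cc _ G).mpr ⟨hG1, hH2⟩⟩
  have h2 : cc (fun G : SimpleGraph V => ∃ B : Finset V, B.card = b ∧ 4 * b ≤ ein G B + 6) ≤
      ∑ B ∈ (univ : Finset V).powersetCard b,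
        ∑ H ∈ (B.offDiag.image (Sym2.mk.uncurry : V × V → Sym2 V)).powersetCard (2 * b - 3), N H := by
    unfold cc
    refine (Finset.card_le_card h1).trans (Finset.card_biUnion_le.trans ?_)
    exact Finset.sum_le_sum fun B _ => Finset.card_biUnion_le
  calc Fintype.card V ^ (2 * b - 3) *
      cc (fun G : SimpleGraph V => ∃ B : Finset V, B.card = b ∧ 4 * b ≤ ein G B + 6)
      ≤ Fintype.card V ^ (2 * b - 3) * ∑ B ∈ (univ : Finset V).powersetCard b,
        ∑ H ∈ (B.offDiag.image (Sym2.mk.uncurry : V × V → Sym2 V)).powersetCard (2 * b - 3), N H :=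
        Nat.mul_le_mul_left _ h2
    _ = ∑ B ∈ (univ : Finset V).powersetCard b,
        ∑ H ∈ (B.offDiag.image (Sym2.mk.uncurry : V × V → Sym2 V)).powersetCard (2 * b - 3),
          Fintype.card V ^ (2 * b - 3) * N H := by
        rw [Finset.mul_sum]
        exact Finset.sum_congr rfl fun B _ => Finset.mul_sum _ _ _
    _ ≤ ∑ B ∈ (univ : Finset V).powersetCard b,
        ∑ H ∈ (B.offDiag.image (Sym2.mk.uncurry : V × V → Sym2 V)).powersetCard (2 * b - 3),
          5 ^ (2 * b - 3) * cc fun _ : SimpleGraph V => True := by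
        refine Finset.sum_le_sum fun B _ => Finset.sum_le_sum fun H hH => ?_
        have h3 : H.card = 2 * b - 3 := (Finset.mem_powersetCard.mp hH).2
        have h4 := h V H (by omega) (by omega)
        rwa [h3] at h4
    _ = ∑ B ∈ (univ : Finset V).powersetCard b,
          (b.choose 2).choose (2 * b - 3) * (5 ^ (2 * b - 3) * cc fun _ : SimpleGraph V => True) := by
        refine Finset.sum_congr rfl fun B hB => ?_
        have h3 : B.card = b := (Finset.mem_powersetCard.mp hB).2
        rw [Finset.sum_const, Finset.card_powersetCard, Sym2.card_image_offDiag, h3, smul_eq_mul]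
    _ = (Fintype.card V).choose b * (b.choose 2).choose (2 * b - 3) * 5 ^ (2 * b - 3) *
          cc fun _ : SimpleGraph V => True := by
        rw [Finset.sum_const, Finset.card_powersetCard, Finset.card_univ, smul_eq_mul]
        ring

end PP
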